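import Mathlib
import Pool.Agent.H295R3.D2

set_option autoImplicit false

open Finset

namespace Pool.Agent.H295R3.D

/-- number of rough `n` in `(A, A+B]` divisible by `d` -/
noncomputable def NN (z A B d : ℕ) : ℝ :=
  (((Ioc A (A + B)).filter (fun n => Rough z n ∧ d ∣ n)).card : ℝ)

noncomputable def SS (L : ℝ) (z A B : ℕ) : ℝ :=
  ∑ n ∈ (Ioc A (A + B)).filter (Rough z), lam L n

lemma rough_of_dvd {z m n : ℕ} (h : Rough z n) (hd : m ∣ n) : Rough z m :=
  fun p hp hpz hpm => h p hp hpz (hpm.trans hd)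

lemma rough_mul {z m n : ℕ} (h1 : Rough z m) (h2 : Rough z n) : Rough z (m * n) := by
  intro p hp hpz hd
  rcases (Nat.Prime.dvd_mul hp).1 hd with h | h
  · exact h1 p hp hpz h
  · exact h2 p hp hpz h

lemma NN_sum (z A B d : ℕ) : NN z A B d =
    ∑ n ∈ (Ioc A (A + B)).filter (Rough z), if d ∣ n then (1:ℝ) else 0 := by
  unfold NN
  rw [← sum_filter, filter_filter, sum_const, nsmul_eq_mul, mul_one]

lemma NN_nonneg (z A B d : ℕ) : 0 ≤ NN z A B d := by
  unfold NN; positivity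

lemma SS_eq (L : ℝ) (z A B T : ℕ) (hT : A + B ≤ T) :
    SS L z A B = ∑ d ∈ (Icc 1 T).filter (Rough z),
      (ArithmeticFunction.moebius d : ℝ) * (L - Real.log d) ^ 2 * NN z A B d := by
  simp only [NN_sum]
  unfold SS lam
  have h1 : ∀ d ∈ (Icc 1 T).filter (Rough z),
      (ArithmeticFunction.moebius d : ℝ) * (L - Real.log d) ^ 2 *
        (∑ n ∈ (Ioc A (A + B)).filter (Rough z), if d ∣ n then (1:ℝ) else 0) =
      ∑ n ∈ (Ioc A (A + B)).filter (Rough z), if d ∣ n then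
        (ArithmeticFunction.moebius d : ℝ) * (L - Real.log d) ^ 2 else 0 := by
    intro d _
    rw [mul_sum]
    refine sum_congr rfl fun n _ => ?_
    split_ifs <;> simp
  rw [sum_congr rfl h1, sum_comm]
  refine sum_congr rfl fun n hn => ?_
  rw [← sum_filter]
  refine sum_congr ?_ fun _ _ => rfl
  rw [mem_filter, mem_Ioc] at hn
  ext d
  simp only [Nat.mem_divisors, mem_filter, mem_Icc]
  constructor
  · rintro ⟨h, h0⟩
    have := Nat.le_of_dvd (Nat.pos_of_ne_zero h0) h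
    have h2 := Nat.pos_of_dvd_of_pos h (Nat.pos_of_ne_zero h0)
    exact ⟨⟨⟨h2, by omega⟩, rough_of_dvd hn.2 h⟩, h⟩
  · rintro ⟨_, h⟩
    exact ⟨h, by omega⟩

lemma NN_eq (z A B d : ℕ) (hd : 1 ≤ d) (hr : Rough z d) :
    NN z A B d = (((Ioc (A / d) ((A + B) / d)).filter (Rough z)).card : ℝ) := by
  unfold NN
  congr 1
  refine Finset.card_nbij' (fun n => n / d) (fun m => d * m) ?_ ?_ ?_ ?_
  · intro n hn
    simp only [coe_filter, mem_Ioc, Set.mem_ofPred_eq] at hn ⊢
    obtain ⟨⟨h1, h2⟩, h3, k, rfl⟩ := hn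
    rw [Nat.mul_div_cancel_left _ (by omega)]
    refine ⟨⟨?_, ?_⟩, rough_of_dvd h3 (Dvd.intro_left d rfl)⟩
    · rw [Nat.div_lt_iff_lt_mul (by omega)]; rw [mul_comm]; exact h1
    · rw [Nat.le_div_iff_mul_le (by omega)]; rw [mul_comm]; exact h2
  · intro m hm
    simp only [coe_filter, mem_Ioc, Set.mem_ofPred_eq] at hm ⊢
    obtain ⟨⟨h1, h2⟩, h3⟩ := hm
    rw [Nat.div_lt_iff_lt_mul (by omega), mul_comm] at h1
    rw [Nat.le_div_iff_mul_le (by omega), mul_comm] at h2
    exact ⟨⟨h1, h2⟩, rough_mul hr h3, Dvd.intro m rfl⟩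
  · intro n hn
    simp only [coe_filter, mem_Ioc, Set.mem_ofPred_eq] at hn ⊢
    exact Nat.mul_div_cancel' hn.2.2
  · intro m hm
    exact Nat.mul_div_cancel_left _ (by omega)

lemma NN_approx (z W : ℕ) (κ V : ℝ) (hκ0 : 0 ≤ κ) (hκ : κ ≤ 1) (hV : 0 ≤ V) (hW : 1 ≤ W)
    (hF : ∀ A Y : ℕ, W ≤ Y →
      |(((Ioc A (A + Y)).filter (Rough z)).card : ℝ) - V * Y| ≤ κ * V * Y)
    (A B d : ℕ) (hd : 1 ≤ d) (hr : Rough z d) (hB : d * (W + 1) ≤ B) :
    |NN z A B d - V * (B / d)| ≤ (κ + 2 / W) * (V * (B / d)) := by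
  rw [NN_eq z A B d hd hr]
  have hdr : (0:ℝ) < d := by exact_mod_cast hd
  have h1 : (A + B) / d = A / d + ((A + B) / d - A / d) := by
    have : A / d ≤ (A + B) / d := Nat.div_le_div_right (by omega)
    omega
  set B' := (A + B) / d - A / d with hB'
  have hWB : W + 1 ≤ B / d := by
    rw [Nat.le_div_iff_mul_le (by omega), mul_comm]; exact hB
  have h2 : B / d ≤ B' := by
    have : A / d + B / d ≤ (A + B) / d := Nat.div_add_div_le_add_div
    omega
  have h3 := hF (A / d) B' (by omega)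
  rw [← h1] at h3
  -- real bounds
  have f1 : (((A + B) / d : ℕ) : ℝ) ≤ ((A + B : ℕ) : ℝ) / d := Nat.cast_div_le
  have f2 : ((A / d : ℕ) : ℝ) ≤ (A : ℝ) / d := Nat.cast_div_le
  have f3 : ((A + B : ℕ) : ℝ) / d - 1 ≤ (((A + B) / d : ℕ) : ℝ) := by
    rw [sub_le_iff_le_add, div_le_iff₀ hdr]
    have := Nat.lt_div_mul_add (a := A + B) (b := d) (by omega)
    have h : A + B ≤ ((A + B) / d + 1) * d := by nlinarith
    exact_mod_cast h
  have f4 : (A : ℝ) / d - 1 ≤ ((A / d : ℕ) : ℝ) := by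
    rw [sub_le_iff_le_add, div_le_iff₀ hdr]
    have := Nat.lt_div_mul_add (a := A) (b := d) (by omega)
    have h : A ≤ (A / d + 1) * d := by nlinarith
    exact_mod_cast h
  have f5 : (B' : ℝ) = (((A + B) / d : ℕ) : ℝ) - ((A / d : ℕ) : ℝ) := by
    have : (((A + B) / d : ℕ) : ℝ) = ((A / d + B' : ℕ) : ℝ) := by rw [← h1]
    rw [this]; push_cast; ring
  have f6 : ((A + B : ℕ) : ℝ) / d = (A:ℝ) / d + B / d := by push_cast; ring
  have g1 : |(B' : ℝ) - B / d| ≤ 1 := by
    rw [abs_le]; constructor <;> linarith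
  have hWr : (1:ℝ) ≤ W := by exact_mod_cast hW
  have g2 : (W : ℝ) ≤ B / d := by
    rw [le_div_iff₀ hdr]
    have : W * d ≤ B := by nlinarith
    exact_mod_cast this
  have g3 : (1:ℝ) ≤ (1 / W) * (B / d) := by
    rw [one_div, inv_mul_eq_div, le_div_iff₀ (by linarith)]
    linarith
  have g4 : (B' : ℝ) ≤ B / d + 1 := by linarith [(abs_le.1 g1).2]
  have g5 := abs_le.1 g1
  have h3' := abs_le.1 h3
  set c := (((Ioc (A / d) ((A + B) / d)).filter (Rough z)).card : ℝ)
  have k1 : κ * V * B' ≤ κ * V * (B / d) + V * ((1 / W) * (B / d)) := by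
    have : κ * V * B' ≤ κ * V * (B / d + 1) := by
      apply mul_le_mul_of_nonneg_left g4 (by positivity)
    have t : κ * V * 1 ≤ V * ((1 / W) * (B / d)) := by
      have : κ * V * 1 ≤ V * 1 := by nlinarith
      exact this.trans (mul_le_mul_of_nonneg_left g3 hV)
    nlinarith
  have k2 : V * B' - V * (B / d) ≤ V * ((1 / W) * (B / d)) := by
    have : V * (B' - B / d) ≤ V * ((1 / W) * (B / d)) :=
      mul_le_mul_of_nonneg_left (g5.2.trans g3) hV
    linarith
  have k3 : -(V * ((1 / W) * (B / d))) ≤ V * B' - V * (B / d) := by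
    have : V * (-((1 / W) * (B / d))) ≤ V * (B' - B / d) :=
      mul_le_mul_of_nonneg_left (by linarith) hV
    linarith
  have e : (κ + 2 / (W:ℝ)) * (V * (B / d)) = κ * V * (B / d) + V * ((1 / W) * (B / d)) +
      V * ((1 / W) * (B / d)) := by ring
  rw [e, abs_le]
  constructor <;> linarith

lemma tail_le (z A B T D M : ℕ) (h : A + B < (D + 1) * (M + 1)) :
    ∑ d ∈ ((Icc 1 T).filter (Rough z)).filter (fun d => D < d), NN z A B d ≤
      ∑ m ∈ (Icc 1 M).filter (Rough z), NN z A B m := by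
  simp only [NN_sum]
  rw [sum_comm, sum_comm (s := (Icc 1 M).filter (Rough z))]
  refine sum_le_sum fun n hn => ?_
  rw [mem_filter, mem_Ioc] at hn
  rw [← sum_filter, ← sum_filter, sum_const, sum_const, nsmul_eq_mul, nsmul_eq_mul, mul_one,
    mul_one]
  norm_cast
  refine Finset.card_le_card_of_injOn (fun d => n / d) ?_ ?_
  · intro d hd
    simp only [coe_filter, mem_filter, mem_Icc, Set.mem_ofPred_eq] at hd ⊢
    obtain ⟨⟨⟨⟨h1, h2⟩, h3⟩, h4⟩, k, rfl⟩ := hd
    rw [Nat.mul_div_cancel_left _ (by omega)]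
    have hk : 1 ≤ k := by
      rcases Nat.eq_zero_or_pos k with h0 | h0
      · subst h0; simp at hn
      · exact h0
    refine ⟨⟨⟨hk, ?_⟩, rough_of_dvd hn.2 (Dvd.intro_left d rfl)⟩, Dvd.intro_left d rfl⟩
    by_contra hc
    have : (D + 1) * (M + 1) ≤ d * k := Nat.mul_le_mul (by omega) (by omega)
    omega
  · intro a ha b hb hab
    simp only [coe_filter, mem_filter, mem_Icc, Set.mem_ofPred_eq] at ha hb hab
    obtain ⟨_, ka, hka⟩ := ha
    obtain ⟨hb1, kb, hkb⟩ := hb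
    have ea : n / a = ka := by rw [hka]; exact Nat.mul_div_cancel_left _ (by omega)
    have eb : n / b = kb := by rw [hkb]; exact Nat.mul_div_cancel_left _ (by omega)
    rw [ea, eb] at hab
    subst hab
    have hk : 0 < ka := by
      rcases Nat.eq_zero_or_pos ka with h0 | h0
      · subst h0; simp at hka; omega
      · exact h0
    have : a * ka = b * ka := by rw [← hka, ← hkb]
    exact Nat.eq_of_mul_eq_mul_right hk this

end Pool.Agent.H295R3.D
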