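import Mathlib
import Pool.Agent.H295R3.D3

set_option autoImplicit false

open Finset

namespace Pool.Agent.H295R3.D

lemma NN_div (z W : ℕ) (κ V : ℝ) (hκ0 : 0 ≤ κ) (hκ : κ ≤ 1) (hV : 0 ≤ V) (hW : 1 ≤ W)
    (hF : ∀ A Y : ℕ, W ≤ Y →
      |(((Ioc A (A + Y)).filter (Rough z)).card : ℝ) - V * Y| ≤ κ * V * Y)
    (A B d : ℕ) (hd : 1 ≤ d) (hr : Rough z d) (hB : d * (W + 1) ≤ B) :
    |NN z A B d / B - V / d| ≤ (κ + 2 / W) * V * (1 / d) := by
  have h := NN_approx z W κ V hκ0 hκ hV hW hF A B d hd hr hB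
  have hB0 : (0:ℝ) < B := by
    have : 1 ≤ d * (W + 1) := Nat.mul_pos (by omega) (by omega)
    exact_mod_cast lt_of_lt_of_le (by omega) hB
  have hd0 : (0:ℝ) < d := by exact_mod_cast hd
  have e : NN z A B d / B - V / d = (NN z A B d - V * (B / d)) / B := by
    field_simp
  rw [e, abs_div, abs_of_pos hB0, div_le_iff₀ hB0]
  refine h.trans (le_of_eq ?_)
  ring

lemma compare (z W : ℕ) (κ V L : ℝ) (hκ0 : 0 ≤ κ) (hκ : κ ≤ 1) (hV : 0 ≤ V) (hW : 1 ≤ W)
    (hF : ∀ A Y : ℕ, W ≤ Y →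
      |(((Ioc A (A + Y)).filter (Rough z)).card : ℝ) - V * Y| ≤ κ * V * Y)
    (X Y D M : ℕ) (hD : 1 ≤ D) (hDY : D * (W + 1) ≤ Y) (hM : X + Y < (D + 1) * (M + 1))
    (hMD : M ≤ D) (hL : L = Real.log ((X + Y : ℕ) : ℝ)) :
    |SS L z X Y / Y - SS L z 0 (X + Y) / ((X + Y : ℕ) : ℝ)| ≤
      2 * (κ + 2 / W) * V * L ^ 2 * ∑ d ∈ (Icc 1 (X + Y)).filter (Rough z), (1:ℝ) / d +
      2 * (1 + (κ + 2 / W)) * V * (L - Real.log D) ^ 2 *
        ∑ m ∈ (Icc 1 M).filter (Rough z), (1:ℝ) / m := by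
  set E : ℝ := κ + 2 / W with hE
  have hE0 : 0 ≤ E := by positivity
  have hY1 : 1 ≤ Y := by
    have : 1 ≤ D * (W + 1) := Nat.mul_pos (by omega) (by omega)
    omega
  have hDX : D ≤ X + Y := by nlinarith
  have hY0 : (0:ℝ) < Y := by exact_mod_cast hY1
  have hX0 : (0:ℝ) < ((X + Y : ℕ) : ℝ) := by exact_mod_cast (by omega : 0 < X + Y)
  set R := (Icc 1 (X + Y)).filter (Rough z) with hR
  have s1 := SS_eq L z X Y (X + Y) le_rfl
  have s2 := SS_eq L z 0 (X + Y) (X + Y) (by omega)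
  rw [s1, s2, sum_div, sum_div, ← sum_sub_distrib]
  -- pointwise
  have p1 : ∀ d ∈ R, |(ArithmeticFunction.moebius d : ℝ) * (L - Real.log d) ^ 2 * NN z X Y d / Y -
      (ArithmeticFunction.moebius d : ℝ) * (L - Real.log d) ^ 2 * NN z 0 (X + Y) d /
        ((X + Y : ℕ) : ℝ)| ≤
      (L - Real.log d) ^ 2 * |NN z X Y d / Y - NN z 0 (X + Y) d / ((X + Y : ℕ) : ℝ)| := by
    intro d _
    have e : (ArithmeticFunction.moebius d : ℝ) * (L - Real.log d) ^ 2 * NN z X Y d / Y -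
      (ArithmeticFunction.moebius d : ℝ) * (L - Real.log d) ^ 2 * NN z 0 (X + Y) d /
        ((X + Y : ℕ) : ℝ) = (ArithmeticFunction.moebius d : ℝ) * ((L - Real.log d) ^ 2 *
        (NN z X Y d / Y - NN z 0 (X + Y) d / ((X + Y : ℕ) : ℝ))) := by ring
    rw [e, abs_mul, abs_mul, abs_of_nonneg (sq_nonneg (L - Real.log d))]
    have hm : |(ArithmeticFunction.moebius d : ℝ)| ≤ 1 := by
      have := @ArithmeticFunction.abs_moebius_le_one d
      exact_mod_cast this
    have : 0 ≤ (L - Real.log d) ^ 2 *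
      |NN z X Y d / Y - NN z 0 (X + Y) d / ((X + Y : ℕ) : ℝ)| := by positivity
    nlinarith
  have hlog : ∀ d ∈ R, 0 ≤ Real.log d ∧ Real.log d ≤ L := by
    intro d hd
    rw [hR, mem_filter, mem_Icc] at hd
    constructor
    · exact Real.log_natCast_nonneg d
    · rw [hL]
      apply Real.log_le_log
      · exact_mod_cast (by omega : 0 < d)
      · exact_mod_cast hd.1.2
  refine (abs_sum_le_sum_abs _ _).trans ((sum_le_sum p1).trans ?_)
  rw [← sum_filter_add_sum_filter_not R (fun d => D < d)]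
  rw [add_comm]
  refine add_le_add ?_ ?_
  · -- small d
    have q1 : ∀ d ∈ R.filter (fun d => ¬ D < d), (L - Real.log d) ^ 2 *
        |NN z X Y d / Y - NN z 0 (X + Y) d / ((X + Y : ℕ) : ℝ)| ≤
        2 * E * V * L ^ 2 * (1 / d) := by
      intro d hd
      rw [mem_filter] at hd
      obtain ⟨hdR, hdD⟩ := hd
      have hl := hlog d hdR
      rw [hR, mem_filter, mem_Icc] at hdR
      have hdd : d * (W + 1) ≤ Y := (Nat.mul_le_mul_right _ (by omega)).trans hDY
      have a1 := NN_div z W κ V hκ0 hκ hV hW hF X Y d hdR.1.1 hdR.2 hdd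
      have a2 := NN_div z W κ V hκ0 hκ hV hW hF 0 (X + Y) d hdR.1.1 hdR.2 (by omega)
      rw [← hE] at a1 a2
      have a3 : |NN z X Y d / Y - NN z 0 (X + Y) d / ((X + Y : ℕ) : ℝ)| ≤ 2 * E * V * (1 / d) := by
        rw [abs_le] at a1 a2 ⊢
        constructor <;> linarith [a1.1, a1.2, a2.1, a2.2]
      have a4 : (L - Real.log d) ^ 2 ≤ L ^ 2 := by
        apply pow_le_pow_left₀ (by linarith) (by linarith)
      calc (L - Real.log d) ^ 2 * |NN z X Y d / Y - NN z 0 (X + Y) d / ((X + Y : ℕ) : ℝ)|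
          ≤ L ^ 2 * (2 * E * V * (1 / d)) := mul_le_mul a4 a3 (abs_nonneg _) (sq_nonneg _)
        _ = 2 * E * V * L ^ 2 * (1 / d) := by ring
    refine (sum_le_sum q1).trans ?_
    rw [← mul_sum]
    apply mul_le_mul_of_nonneg_left _ (by positivity)
    exact sum_le_sum_of_subset_of_nonneg (filter_subset _ _) (fun _ _ _ => by positivity)
  · -- large d
    have q1 : ∀ d ∈ R.filter (fun d => D < d), (L - Real.log d) ^ 2 *
        |NN z X Y d / Y - NN z 0 (X + Y) d / ((X + Y : ℕ) : ℝ)| ≤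
        (L - Real.log D) ^ 2 * (NN z X Y d / Y + NN z 0 (X + Y) d / ((X + Y : ℕ) : ℝ)) := by
      intro d hd
      rw [mem_filter] at hd
      obtain ⟨hdR, hdD⟩ := hd
      have hl := hlog d hdR
      have hlD : Real.log D ≤ Real.log d := by
        apply Real.log_le_log
        · exact_mod_cast (by omega : 0 < D)
        · exact_mod_cast hdD.le
      have b1 : 0 ≤ NN z X Y d / Y := div_nonneg (NN_nonneg _ _ _ _) hY0.le
      have b2 : 0 ≤ NN z 0 (X + Y) d / ((X + Y : ℕ) : ℝ) :=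
        div_nonneg (NN_nonneg _ _ _ _) hX0.le
      apply mul_le_mul
      · apply pow_le_pow_left₀ (by linarith) (by linarith)
      · rw [abs_le]; constructor <;> linarith
      · exact abs_nonneg _
      · positivity
    refine (sum_le_sum q1).trans ?_
    rw [← mul_sum, sum_add_distrib, ← sum_div, ← sum_div]
    have t1 := tail_le z X Y (X + Y) D M hM
    have t2 := tail_le z 0 (X + Y) (X + Y) D M (by omega)
    rw [← hR] at t1 t2
    have u : ∀ A B : ℕ, Y ≤ B → (∑ m ∈ (Icc 1 M).filter (Rough z), NN z A B m) / B ≤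
        (1 + E) * V * ∑ m ∈ (Icc 1 M).filter (Rough z), (1:ℝ) / m := by
      intro A B hYB
      rw [sum_div, mul_sum]
      refine sum_le_sum fun m hm => ?_
      rw [mem_filter, mem_Icc] at hm
      have hdd : m * (W + 1) ≤ B :=
        ((Nat.mul_le_mul_right _ (by omega)).trans hDY).trans hYB
      have a1 := NN_div z W κ V hκ0 hκ hV hW hF A B m hm.1.1 hm.2 hdd
      rw [← hE] at a1
      have := (abs_le.1 a1).2
      have e : (1 + E) * V * (1 / (m:ℝ)) = V / m + E * V * (1 / m) := by ring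
      rw [e]; linarith
    have u1 := u X Y le_rfl
    have u2 := u 0 (X + Y) (by omega)
    have v1 : (∑ d ∈ R.filter (fun d => D < d), NN z X Y d) / (Y:ℝ) ≤
        (1 + E) * V * ∑ m ∈ (Icc 1 M).filter (Rough z), (1:ℝ) / m :=
      (div_le_div_of_nonneg_right t1 hY0.le).trans u1
    have v2 : (∑ d ∈ R.filter (fun d => D < d), NN z 0 (X + Y) d) / ((X + Y : ℕ) : ℝ) ≤
        (1 + E) * V * ∑ m ∈ (Icc 1 M).filter (Rough z), (1:ℝ) / m :=
      (div_le_div_of_nonneg_right t2 hX0.le).trans u2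
    have e : 2 * (1 + E) * V * (L - Real.log D) ^ 2 *
        ∑ m ∈ (Icc 1 M).filter (Rough z), (1:ℝ) / m =
        (L - Real.log D) ^ 2 * ((1 + E) * V * ∑ m ∈ (Icc 1 M).filter (Rough z), (1:ℝ) / m +
          (1 + E) * V * ∑ m ∈ (Icc 1 M).filter (Rough z), (1:ℝ) / m) := by ring
    rw [e]
    exact mul_le_mul_of_nonneg_left (add_le_add v1 v2) (sq_nonneg _)

end Pool.Agent.H295R3.D
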