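import Mathlib
import Pool.Agent.H469R10.HO.Stmts
import Pool.Agent.Cov.PNT
import Pool.Agent.H295R3.D6

set_option autoImplicit false

open Finset Filter Topology

namespace Pool.Agent.H295R3.D

open Pool.Agent.H469R10.HO

/-- all conditions on large X -/
lemma large (ρ ε C₂ B : ℝ) (hρ : 0 < ρ) (hε : 0 < ε) :
    ∀ᶠ X : ℕ in atTop, 16 ≤ (X:ℝ) ∧ B ≤ ((X:ℝ) ^ ρ) / 2 ∧ 1 ≤ (X:ℝ) ^ ρ / 2 ∧
      6 ≤ Real.log X ∧ 4 ≤ ρ * Real.log X ∧ C₂ ≤ ε * Real.log X ∧
      768 * Real.log X ≤ ε * (X:ℝ) ^ ρ ∧ 768 * Real.log X ≤ ε * (X:ℝ) ^ (1/4 : ℝ) := by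
  have hX : Tendsto (fun X : ℕ => (X:ℝ)) atTop atTop := tendsto_natCast_atTop_atTop
  have hl : Tendsto (fun X : ℕ => Real.log (X:ℝ)) atTop atTop := Real.tendsto_log_atTop.comp hX
  have hp : Tendsto (fun X : ℕ => (X:ℝ) ^ ρ) atTop atTop := (tendsto_rpow_atTop hρ).comp hX
  have hlog : ∀ r : ℝ, 0 < r → ∀ᶠ X : ℕ in atTop, 768 * Real.log X ≤ ε * (X:ℝ) ^ r := by
    intro r hr
    have h := (isLittleO_log_rpow_atTop hr).bound (by positivity : 0 < ε / 768)
    filter_upwards [hX.eventually h, hX.eventually_ge_atTop 1] with X h1 h2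
    rw [Real.norm_of_nonneg (Real.log_nonneg h2), Real.norm_of_nonneg (by positivity)] at h1
    linarith
  filter_upwards [hX.eventually_ge_atTop 16, hp.eventually_ge_atTop (2 * B),
    hp.eventually_ge_atTop 2, hl.eventually_ge_atTop 6, hl.eventually_ge_atTop (4 / ρ),
    hl.eventually_ge_atTop (C₂ / ε), hlog ρ hρ, hlog (1/4) (by norm_num)] with
    X h1 h2 h3 h4 h5 h6 h7 h8
  refine ⟨h1, by linarith, by linarith, h4, ?_, ?_, h7, h8⟩
  · rw [div_le_iff₀ hρ] at h5; linarith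
  · rw [div_le_iff₀ hε] at h6; linarith

lemma aux8000 (κ s : ℝ) (hs : 0 < s) (h1 : κ ≤ 1 / 8000) (h2 : 1 ≤ κ * s) : 8000 ≤ s := by
  nlinarith

theorem task469D (hFL : FundLemma) : SelbergShort := by
  intro ε0 hε0
  set ε : ℝ := min ε0 1 with hεdef
  have hε : 0 < ε := lt_min hε0 one_pos
  have hε1 : ε ≤ 1 := min_le_right _ _
  have hεε0 : ε ≤ ε0 := min_le_left _ _
  obtain ⟨C₁, hC1, hRS⟩ := rough_sum
  obtain ⟨C₂, hC2⟩ := Pool.Agent.Helper601.Mertens.mertens_log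
  have hC20 : 0 ≤ C₂ := (abs_nonneg _).trans (hC2 1 le_rfl)
  have hC1pos : 0 < C₁ := by linarith
  set κ : ℝ := ε / (8000 * C₁) with hκdef
  have hκ : 0 < κ := by positivity
  have hκC : κ * C₁ = ε / 8000 := by rw [hκdef]; field_simp
  have hκ1 : κ ≤ ε / 8000 := by
    rw [← hκC]; exact le_mul_of_one_le_right hκ.le hC1
  obtain ⟨s, hs1, hsκ, z₀, hz₀, hz⟩ := hFL κ hκ
  have hs0 : (0:ℝ) < s := by exact_mod_cast hs1
  have hs8000 : (8000:ℝ) ≤ s := by
    rw [div_le_iff₀ hs0] at hsκ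
    exact aux8000 κ s hs0 (by linarith) hsκ
  set ρ : ℝ := 1 / (s:ℝ) ^ 4 with hρdef
  have hρ : 0 < ρ := by positivity
  have hsinv : 1 / (s:ℝ) ≤ ε / 8000 := hsκ.trans hκ1
  set t : ℝ := 1 / (s:ℝ) with htdef
  have ht0 : 0 < t := by positivity
  have hts : t * s = 1 := by rw [htdef]; field_simp
  have hρt : ρ = t ^ 4 := by rw [hρdef, htdef]; field_simp
  have ht1 : t ≤ 1 / 8000 := hsinv.trans (by linarith)
  have ht3 : t ^ 3 ≤ 1 / 64 := by
    calc t ^ 3 ≤ (1 / 8000) ^ 3 := pow_le_pow_left₀ ht0.le ht1 3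
      _ ≤ 1 / 64 := by norm_num
  have ht43 : t ^ 4 ≤ t ^ 3 := pow_le_pow_of_le_one ht0.le (by linarith) (by norm_num)
  have ht4t : t ^ 4 ≤ t := by
    calc t ^ 4 ≤ t ^ 1 := pow_le_pow_of_le_one ht0.le (by linarith) (by norm_num)
      _ = t := pow_one t
  have hρ1 : ρ ≤ 1 / 64 := by rw [hρt]; linarith
  set κ' : ℝ := κ / (s:ℝ) ^ 8 with hκ'def
  have hκ' : 0 < κ' := by positivity
  have hκ't : κ' = κ * t ^ 8 := by rw [hκ'def, htdef]; field_simp
  -- PNT
  have hpnt : ∀ᶠ x : ℝ in atTop, (1 - ε / 16) * x ≤ Chebyshev.theta x := by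
    have h := Pool.Agent.Cov.PNT.theta_div_tendsto.eventually (lt_mem_nhds
      (show 1 - ε / 16 < (1:ℝ) by linarith))
    filter_upwards [h, eventually_gt_atTop 0] with x h1 h2
    rw [lt_div_iff₀ h2] at h1
    exact h1.le
  obtain ⟨x₁, hx₁⟩ := eventually_atTop.1 hpnt
  set B : ℝ := max (max z₀ 3) (max (4 / κ') (max x₁ 3)) with hBdef
  have hlarge := large ρ (ε / 64) (max (2 * C₂ + 6) (32 * (s:ℝ) ^ 4)) (B + 1) hρ (by positivity)
  obtain ⟨X₀, hX₀⟩ := eventually_atTop.1 hlarge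
  refine ⟨ρ, hρ, by linarith, max X₀ 2, le_max_right _ _, ?_⟩
  intro X Y hX hXY hYX
  obtain ⟨g1, g2, g3, g4, g5, g6, g7, g8⟩ := hX₀ X ((le_max_left _ _).trans hX)
  clear hX₀ hlarge
  set x : ℝ := (X:ℝ) with hx
  set lx : ℝ := Real.log x with hlx
  have hx0 : 0 < x := by linarith
  have hxr0 : 0 < x ^ ρ := by positivity
  set z : ℕ := ⌊x ^ ρ⌋₊ with hzdef
  have hzle : (z:ℝ) ≤ x ^ ρ := Nat.floor_le hxr0.le
  have hzge : x ^ ρ / 2 ≤ z := by
    have := Nat.sub_one_lt_floor (x ^ ρ)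
    rw [← hzdef] at this
    linarith
  have hBz : B ≤ z := by linarith
  have hzz₀ : z₀ ≤ z := by
    have : (z₀:ℝ) ≤ z := ((le_max_left _ _).trans (le_max_left _ _)).trans hBz
    exact_mod_cast this
  have hz3 : 3 ≤ z := by
    have : (3:ℝ) ≤ z := ((le_max_right _ _).trans (le_max_left _ _)).trans hBz
    exact_mod_cast this
  have hzκ : 4 / κ' ≤ z := ((le_max_left _ _).trans (le_max_right _ _)).trans hBz
  have hzx₁ : x₁ ≤ z := (((le_max_left _ _).trans (le_max_right _ _)).trans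
    (le_max_right _ _)).trans hBz
  have hz3r : (3:ℝ) ≤ z := by exact_mod_cast hz3
  have hz0r : (0:ℝ) < z := by linarith
  -- logs
  have hlxr : Real.log (x ^ ρ) = ρ * lx := Real.log_rpow hx0 ρ
  have hlz_le : Real.log z ≤ ρ * lx := by
    rw [← hlxr]; exact Real.log_le_log hz0r hzle
  have hl2 : Real.log 2 ≤ 1 := by have := Real.log_two_lt_d9; linarith
  have hl20 : 0 ≤ Real.log 2 := Real.log_nonneg (by norm_num)
  have hlz_ge : ρ * lx / 2 ≤ Real.log z := by
    have h1 : Real.log (x ^ ρ / 2) ≤ Real.log z := Real.log_le_log (by positivity) hzge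
    rw [Real.log_div hxr0.ne' (by norm_num), hlxr] at h1
    linarith
  have hlz0 : 0 < Real.log z := Real.log_pos (by linarith)
  -- Y
  have hx1ρ : 0 < x ^ (1 - ρ) := by positivity
  have hY0 : (0:ℝ) < Y := lt_of_lt_of_le hx1ρ hXY
  have hY1 : 1 ≤ Y := by exact_mod_cast hY0
  have hlY : (1 - ρ) * lx ≤ Real.log Y := by
    rw [hlx, ← Real.log_rpow hx0]; exact Real.log_le_log hx1ρ hXY
  have hYxr : (Y:ℝ) ≤ x := by rw [hx]; exact_mod_cast hYX
  -- L
  set L : ℝ := Real.log ((X + Y : ℕ) : ℝ) with hLdef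
  have hNr : ((X + Y : ℕ) : ℝ) = x + Y := by push_cast; rfl
  have hN0 : (0:ℝ) < ((X + Y : ℕ) : ℝ) := by rw [hNr]; linarith
  have hlxL : lx ≤ L := by
    rw [hLdef, hNr]; exact Real.log_le_log hx0 (by linarith)
  have hLlx : L ≤ lx + Real.log 2 := by
    rw [hLdef, hNr, hlx, ← Real.log_mul hx0.ne' (by norm_num)]
    exact Real.log_le_log (by linarith) (by linarith)
  have hlx0 : 0 < lx := by linarith
  have hT : t ^ 3 * lx ≤ lx / 64 := by
    have := mul_le_mul_of_nonneg_right ht3 hlx0.le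
    linarith
  have hRT : ρ * lx ≤ t ^ 3 * lx := by
    apply mul_le_mul_of_nonneg_right _ hlx0.le
    rw [hρt]; exact ht43
  have hR : ρ * lx ≤ lx / 64 := hRT.trans hT
  have hεlx : 0 < ε * lx := mul_pos hε hlx0
  have hL2 : L ≤ 2 * lx := by linarith
  have hL0 : 0 < L := by linarith
  -- W
  set W : ℕ := z ^ s with hWdef
  have hW1 : 1 ≤ W := Nat.one_le_pow _ _ (by omega)
  have hzW : z ≤ W := by
    calc z = z ^ 1 := (pow_one z).symm
      _ ≤ z ^ s := Nat.pow_le_pow_right (by omega) hs1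
  have hWr1 : (1:ℝ) ≤ W := by exact_mod_cast hW1
  have hW0 : (0:ℝ) < W := by linarith
  have hlW : Real.log W ≤ t ^ 3 * lx := by
    rw [hWdef]
    push_cast
    rw [Real.log_pow]
    have h1 : (s:ℝ) * Real.log z ≤ s * (ρ * lx) := mul_le_mul_of_nonneg_left hlz_le hs0.le
    have h2 : (s:ℝ) * (ρ * lx) = t ^ 3 * lx := by
      rw [hρt]
      calc (s:ℝ) * (t ^ 4 * lx) = (t * s) * (t ^ 3 * lx) := by ring
        _ = t ^ 3 * lx := by rw [hts, one_mul]
    linarith
  -- D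
  set D : ℕ := Y / (W + 1) with hDdef
  have hDY : D * (W + 1) ≤ Y := Nat.div_mul_le_self _ _
  have hl4 : Real.log 4 ≤ 2 := by
    have : (4:ℝ) = 2 ^ 2 := by norm_num
    rw [this, Real.log_pow]; push_cast; linarith
  have hWY : W + 1 ≤ Y := by
    have h1 : Real.log ((W + 1 : ℕ) : ℝ) ≤ Real.log Y := by
      have h2 : Real.log ((W + 1 : ℕ) : ℝ) ≤ Real.log 2 + Real.log W := by
        rw [← Real.log_mul (by norm_num) hW0.ne']
        apply Real.log_le_log (by positivity)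
        push_cast; linarith
      linarith
    have h2 := (Real.log_le_log_iff (by positivity) hY0).1 h1
    exact_mod_cast h2
  have hD1 : 1 ≤ D := by
    rw [hDdef, Nat.le_div_iff_mul_le (by omega)]; omega
  have hD0 : (0:ℝ) < D := by exact_mod_cast hD1
  have hDge : (Y:ℝ) ≤ 4 * (W * D) := by
    have h1 : Y < (D + 1) * (W + 1) := by
      have := Nat.lt_div_mul_add (a := Y) (b := W + 1) (by omega)
      rw [← hDdef] at this
      exact lt_of_lt_of_eq this (by ring)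
    have h2 : Y ≤ 4 * (W * D) := by
      calc Y ≤ (D + 1) * (W + 1) := h1.le
        _ ≤ (2 * D) * (2 * W) := Nat.mul_le_mul (by omega) (by omega)
        _ = 4 * (W * D) := by ring
    exact_mod_cast h2
  have hlD : Real.log Y - 2 - t ^ 3 * lx ≤ Real.log D := by
    have := Real.log_le_log hY0 hDge
    rw [Real.log_mul (by norm_num) (by positivity), Real.log_mul hW0.ne' hD0.ne'] at this
    linarith
  have hlD2 : lx - 2 * (t ^ 3 * lx) - 2 ≤ Real.log D := by
    linarith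
  have hLD0 : 0 ≤ L - Real.log D := by
    rw [sub_nonneg, hLdef]
    apply Real.log_le_log hD0
    have : D ≤ X + Y := (Nat.div_le_self _ _).trans (by omega)
    exact_mod_cast this
  have ht3lx : 4 ≤ t ^ 3 * lx := by
    linarith
  have hLD : L - Real.log D ≤ 3 * t ^ 3 * lx := by linarith
  -- M
  set M : ℕ := (X + Y) / (D + 1) with hMdef
  have hM : X + Y < (D + 1) * (M + 1) := by
    have := Nat.lt_div_mul_add (a := X + Y) (b := D + 1) (by omega)
    rw [← hMdef] at this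
    exact lt_of_lt_of_eq this (by ring)
  have hMD : M ≤ D := by
    have h1 : X + Y < (D + 1) * (D + 1) := by
      have h2 : L < 2 * Real.log D := by linarith
      have h3 : 2 * Real.log D = Real.log ((D * D : ℕ) : ℝ) := by
        push_cast
        rw [Real.log_mul hD0.ne' hD0.ne']; ring
      rw [h3, hLdef] at h2
      have h4 := (Real.log_lt_log_iff hN0 (by positivity)).1 h2
      have h5 : X + Y < D * D := by exact_mod_cast h4
      exact lt_of_lt_of_le h5 (Nat.mul_le_mul (by omega) (by omega))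
    rw [hMdef]
    have := Nat.div_lt_of_lt_mul (m := X + Y) (n := D + 1) (k := D + 1) h1
    omega
  have hWM : W ≤ M := by
    rw [hMdef, Nat.le_div_iff_mul_le (by omega)]
    have h1 : W * (D + 1) ≤ W * (2 * D) := Nat.mul_le_mul_left _ (by omega)
    have h2 : W * (2 * D) = 2 * (D * W) := by ring
    have h3 : D * W ≤ D * (W + 1) := Nat.mul_le_mul_left _ (by omega)
    omega
  have hzM : z ≤ M := hzW.trans hWM
  have hM0 : (0:ℝ) < M := by exact_mod_cast (by omega : 0 < M)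
  have hlM : Real.log M ≤ L - Real.log D := by
    have h1 : (M:ℝ) * D ≤ ((X + Y : ℕ) : ℝ) := by
      have : M * (D + 1) ≤ X + Y := Nat.div_mul_le_self _ _
      have h2 : M * D ≤ X + Y := (Nat.mul_le_mul_left M (by omega : D ≤ D + 1)).trans this
      exact_mod_cast h2
    have := Real.log_le_log (by positivity) h1
    rw [Real.log_mul hM0.ne' hD0.ne'] at this
    linarith
  -- FundLemma
  obtain ⟨V, hV0, hV, hF⟩ := hz z hzz₀
  have hF' : ∀ A Y : ℕ, W ≤ Y →
      |(((Ioc A (A + Y)).filter (Rough z)).card : ℝ) - V * Y| ≤ κ' * V * Y := by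
    intro A Y hWY
    have h := hF A Y hWY
    have e : (Ioc A (A + Y)).filter (Rough z) =
        @Finset.filter ℕ (fun n => ∀ p : ℕ, p.Prime → p < z → ¬ p ∣ n)
          (fun _ => Classical.propDecidable _) (Ioc A (A + Y)) := by
      ext n; simp [Rough]
    rw [e]
    exact h
  have hs8 : (1:ℝ) ≤ (s:ℝ) ^ 8 := one_le_pow₀ (by linarith)
  have hκ'κ : κ' ≤ κ := by
    rw [hκ'def]; exact div_le_self hκ.le hs8
  have hκ'1 : κ' ≤ 1 := by linarith
  have hE : κ' + 2 / (W:ℝ) ≤ 2 * κ' := by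
    have h1 : (z:ℝ) ≤ W := by exact_mod_cast hzW
    have h2 : 4 / κ' ≤ W := hzκ.trans h1
    rw [div_le_iff₀ hκ'] at h2
    have h3 : 2 / (W:ℝ) ≤ κ' := by
      rw [div_le_iff₀ hW0]
      linarith
    linarith
  have hcmp := compare z W κ' V L hκ'.le hκ'1 hV0.le hW1 hF' X Y D M hD1 hDY hM hMD hLdef
  have hRS1 := hRS z (X + Y) hz3 (by omega)
  have hRS2 := hRS z M hz3 hzM
  rw [← hLdef] at hRS1
  set E : ℝ := κ' + 2 / (W:ℝ) with hEdef
  have hE0 : 0 ≤ E := by positivity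
  have hE1 : E ≤ 1 := by linarith
  -- error terms
  have hlzinv : 1 / Real.log z ≤ 2 / (t ^ 4 * lx) := by
    rw [div_le_div_iff₀ hlz0 (by positivity)]
    rw [hρt] at hlz_ge
    linarith
  have hVle : V ≤ 4 / (t ^ 4 * lx) := by
    have : 2 / Real.log z = 2 * (1 / Real.log z) := by ring
    have h2 : 4 / (t ^ 4 * lx) = 2 * (2 / (t ^ 4 * lx)) := by ring
    rw [h2]; linarith
  have ht4lx : 0 < t ^ 4 * lx := by positivity
  have hR1 : ∑ d ∈ (Icc 1 (X + Y)).filter (Rough z), (1:ℝ) / d ≤ 4 * C₁ / t ^ 4 := by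
    refine hRS1.trans ?_
    have h1 : L / Real.log z ≤ 4 / t ^ 4 := by
      have : L / Real.log z = L * (1 / Real.log z) := by ring
      rw [this]
      calc L * (1 / Real.log z) ≤ (2 * lx) * (2 / (t ^ 4 * lx)) :=
            mul_le_mul hL2 hlzinv (by positivity) (by positivity)
        _ = 4 / t ^ 4 := by field_simp; norm_num
    calc C₁ * (L / Real.log z) ≤ C₁ * (4 / t ^ 4) := mul_le_mul_of_nonneg_left h1 hC1pos.le
      _ = 4 * C₁ / t ^ 4 := by ring
  have hR2 : ∑ m ∈ (Icc 1 M).filter (Rough z), (1:ℝ) / m ≤ 6 * C₁ / t := by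
    refine hRS2.trans ?_
    have h0 : Real.log M ≤ 3 * t ^ 3 * lx := hlM.trans hLD
    have h1 : Real.log M / Real.log z ≤ 6 / t := by
      have : Real.log M / Real.log z = Real.log M * (1 / Real.log z) := by ring
      rw [this]
      calc Real.log M * (1 / Real.log z) ≤ (3 * t ^ 3 * lx) * (2 / (t ^ 4 * lx)) :=
            mul_le_mul h0 hlzinv (by positivity) (by positivity)
        _ = 6 / t := by field_simp; norm_num
    calc C₁ * (Real.log M / Real.log z) ≤ C₁ * (6 / t) := mul_le_mul_of_nonneg_left h1 hC1pos.le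
      _ = 6 * C₁ / t := by ring
  have hA1 : 2 * E * V * L ^ 2 * ∑ d ∈ (Icc 1 (X + Y)).filter (Rough z), (1:ℝ) / d ≤
      256 * (κ * C₁) * lx := by
    have hE2 : E ≤ 2 * (κ * t ^ 8) := by rw [← hκ't]; exact hE
    have hLsq : L ^ 2 ≤ (2 * lx) ^ 2 := pow_le_pow_left₀ hL0.le hL2 2
    have hsum0 : 0 ≤ ∑ d ∈ (Icc 1 (X + Y)).filter (Rough z), (1:ℝ) / d :=
      sum_nonneg fun _ _ => by positivity
    calc 2 * E * V * L ^ 2 * ∑ d ∈ (Icc 1 (X + Y)).filter (Rough z), (1:ℝ) / d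
        ≤ 2 * (2 * (κ * t ^ 8)) * (4 / (t ^ 4 * lx)) * (2 * lx) ^ 2 * (4 * C₁ / t ^ 4) := by
          gcongr
      _ = 256 * (κ * C₁) * lx := by field_simp; norm_num
  have hA2 : 2 * (1 + E) * V * (L - Real.log D) ^ 2 *
        ∑ m ∈ (Icc 1 M).filter (Rough z), (1:ℝ) / m ≤ 864 * (κ * C₁) * lx := by
    have hLsq : (L - Real.log D) ^ 2 ≤ (3 * t ^ 3 * lx) ^ 2 := pow_le_pow_left₀ hLD0 hLD 2
    calc 2 * (1 + E) * V * (L - Real.log D) ^ 2 *
        ∑ m ∈ (Icc 1 M).filter (Rough z), (1:ℝ) / m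
        ≤ 2 * (1 + 1) * (4 / (t ^ 4 * lx)) * (3 * t ^ 3 * lx) ^ 2 * (6 * C₁ / t) := by
          gcongr
      _ = 864 * (t * C₁) * lx := by field_simp; norm_num
      _ ≤ 864 * (κ * C₁) * lx := by gcongr
  have hcmp2 : SS L z 0 (X + Y) / ((X + Y : ℕ) : ℝ) - (ε / 4) * lx ≤ SS L z X Y / Y := by
    have h1 := (abs_le.1 hcmp).1
    have h2 : 256 * (κ * C₁) * lx + 864 * (κ * C₁) * lx ≤ (ε / 4) * lx := by
      rw [hκC]; linarith
    linarith
  -- lower bound
  have hzz : z * z ≤ X + Y := by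
    have h1 : Real.log ((z * z : ℕ) : ℝ) ≤ L := by
      push_cast
      rw [Real.log_mul hz0r.ne' hz0r.ne']
      linarith
    rw [hLdef] at h1
    have := (Real.log_le_log_iff (by positivity) hN0).1 h1
    exact_mod_cast this
  have hlow := lower (ε / 16) C₂ L z (X + Y) (by omega) hzz (by positivity) (by linarith) hC2
    (fun y hy => hx₁ y (hzx₁.trans hy)) hLdef
  have hlow2 : (2 - ε / 4 - ε / 32) * lx ≤ SS L z 0 (X + Y) / ((X + Y : ℕ) : ℝ) := by
    rw [le_div_iff₀ hN0]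
    refine le_trans ?_ hlow
    set N : ℝ := ((X + Y : ℕ) : ℝ) with hNdef
    have hxN : x ≤ N := by rw [hNr]; linarith
    -- 2 z L ≤ N
    have hz14 : (z:ℝ) ≤ x ^ (1/4 : ℝ) :=
      hzle.trans (Real.rpow_le_rpow_of_exponent_le (by linarith) (by linarith))
    have hlx14 : lx ≤ x ^ (1/4 : ℝ) / 4 := by
      have h1 : 0 < x ^ (1/4 : ℝ) := by positivity
      have h2 : ε / 64 * x ^ (1/4 : ℝ) ≤ 1 / 64 * x ^ (1/4 : ℝ) :=
        mul_le_mul_of_nonneg_right (by linarith) h1.le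
      linarith
    have hx12 : x ^ (1/4 : ℝ) * x ^ (1/4 : ℝ) ≤ x := by
      rw [← Real.rpow_add hx0]
      calc x ^ ((1/4 : ℝ) + 1/4) ≤ x ^ (1:ℝ) :=
            Real.rpow_le_rpow_of_exponent_le (by linarith) (by norm_num)
        _ = x := Real.rpow_one x
    have hzL : 2 * z * L ≤ N := by
      have h1 : (z:ℝ) * L ≤ x ^ (1/4 : ℝ) * (x ^ (1/4 : ℝ) / 2) :=
        mul_le_mul hz14 (by linarith) hL0.le (by positivity)
      linarith
    have hm1 : 2 * C₂ + 6 ≤ ε / 64 * lx := (le_max_left _ _).trans g6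
    have hm2 : 2 * Real.log z ≤ ε / 64 * lx := by
      have : ρ * lx ≤ (ε / 8000) * lx := by
        apply mul_le_mul_of_nonneg_right _ hlx0.le
        rw [hρt]; exact ht4t.trans hsinv
      linarith
    have hm3 : N * (2 * Real.log z + 2 * C₂ + 5) + N ≤ N * (ε / 32 * lx) := by
      have : 2 * Real.log z + 2 * C₂ + 5 + 1 ≤ ε / 32 * lx := by linarith
      have := mul_le_mul_of_nonneg_left this hN0.le
      linarith
    have hm4 : (2 - ε / 4) * lx * N ≤ 2 * (1 - ε / 16) * N * L := by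
      have h0 : ε * L ≤ ε * (2 * lx) := mul_le_mul_of_nonneg_left hL2 hε.le
      have : (2 - ε / 4) * lx ≤ 2 * (1 - ε / 16) * L := by linarith
      have := mul_le_mul_of_nonneg_right this hN0.le
      linarith
    linarith
  -- upper bound
  have hup := upper L z X Y (by omega) (by
    have : (0:ℝ) < X := hx0
    exact_mod_cast this) hLdef
  have hPP : ∑ p ∈ (Ioc X (X + Y)).filter Nat.Prime, Real.log p ≤ 16 * (s:ℝ) ^ 4 * Y := by
    have hzX : z ≤ X := by
      have : (z:ℝ) ≤ x := by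
        calc (z:ℝ) ≤ x ^ ρ := hzle
          _ ≤ x ^ (1:ℝ) := Real.rpow_le_rpow_of_exponent_le (by linarith) (by linarith)
          _ = x := Real.rpow_one x
      have h' : (z:ℝ) ≤ (X:ℝ) := this
      exact_mod_cast h'
    have h1 : ∑ p ∈ (Ioc X (X + Y)).filter Nat.Prime, Real.log p ≤
        ∑ p ∈ (Ioc X (X + Y)).filter (Rough z), L := by
      refine (sum_le_sum (g := fun _ => L) ?_).trans
        (sum_le_sum_of_subset_of_nonneg ?_ (fun _ _ _ => hL0.le))
      · intro p hp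
        rw [mem_filter, mem_Ioc] at hp
        rw [hLdef]
        apply Real.log_le_log
        · exact_mod_cast hp.2.pos
        · exact_mod_cast hp.1.2
      · intro p hp
        rw [mem_filter, mem_Ioc] at hp ⊢
        exact ⟨hp.1, rough_prime hp.2 (by omega)⟩
    refine h1.trans ?_
    rw [sum_const, nsmul_eq_mul]
    have h2 := (abs_le.1 (hF' X Y (by omega))).2
    have h3 : κ' * V * Y ≤ V * Y := by
      have : 0 ≤ V * Y := by positivity
      calc κ' * V * Y = κ' * (V * Y) := by ring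
        _ ≤ 1 * (V * Y) := mul_le_mul_of_nonneg_right hκ'1 this
        _ = V * Y := one_mul _
    have h4 : (((Ioc X (X + Y)).filter (Rough z)).card : ℝ) ≤ 2 * (V * Y) := by linarith
    have hs4 : (s:ℝ) ^ 4 = 1 / t ^ 4 := by rw [htdef]; field_simp
    calc (((Ioc X (X + Y)).filter (Rough z)).card : ℝ) * L
        ≤ 2 * (4 / (t ^ 4 * lx) * Y) * (2 * lx) := by gcongr; linarith [mul_le_mul_of_nonneg_right hVle hY0.le]
      _ = 16 * (s:ℝ) ^ 4 * Y := by rw [hs4]; field_simp; norm_num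
  set P : ℝ := ∑ p ∈ (Ioc X (X + Y)).filter Nat.Prime, Real.log p with hPdef
  have hP0 : 0 ≤ P := sum_nonneg fun _ _ => Real.log_natCast_nonneg _
  have hu1 : (2 * L - lx) * P ≤ lx * P + ε / 64 * lx * Y := by
    have h1 : 32 * (s:ℝ) ^ 4 ≤ ε / 64 * lx := (le_max_right _ _).trans g6
    have h2 : (2 * L - lx) * P ≤ (lx + 2) * P := mul_le_mul_of_nonneg_right (by linarith) hP0
    have h3 : 32 * (s:ℝ) ^ 4 * Y ≤ ε / 64 * lx * Y := mul_le_mul_of_nonneg_right h1 hY0.le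
    linarith
  have hu2 : 3 * L ^ 2 * (2 * Y / z) ≤ ε / 16 * lx * Y := by
    have h1 : 3 * L ^ 2 ≤ 12 * lx ^ 2 := by
      have := pow_le_pow_left₀ hL0.le hL2 2
      linarith
    have h2 : 2 * (Y:ℝ) / z ≤ 4 * Y / x ^ ρ := by
      rw [div_le_div_iff₀ hz0r hxr0]
      have := mul_le_mul_of_nonneg_left hzge hY0.le
      linarith
    calc 3 * L ^ 2 * (2 * Y / z) ≤ 12 * lx ^ 2 * (4 * Y / x ^ ρ) :=
          mul_le_mul h1 h2 (by positivity) (by positivity)
      _ = (48 * lx / x ^ ρ) * (lx * Y) := by ring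
      _ ≤ (ε / 16) * (lx * Y) := by
          apply mul_le_mul_of_nonneg_right _ (by positivity)
          rw [div_le_iff₀ hxr0]
          have : 0 < ε * x ^ ρ := by positivity
          linarith
      _ = ε / 16 * lx * Y := by ring
  have hu3 : 3 * L ^ 2 * √((X + Y : ℕ) : ℝ) ≤ ε / 16 * lx * Y := by
    have h1 : 3 * L ^ 2 ≤ 12 * lx ^ 2 := by
      have := pow_le_pow_left₀ hL0.le hL2 2
      linarith
    have h2 : √((X + Y : ℕ) : ℝ) ≤ 2 * x ^ (1/2 : ℝ) := by
      rw [← Real.sqrt_eq_rpow]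
      have : (2:ℝ) * √x = √(4 * x) := by
        rw [Real.sqrt_mul (by norm_num)]
        congr 1
        rw [show (4:ℝ) = 2 ^ 2 by norm_num, Real.sqrt_sq (by norm_num)]
      rw [this]
      apply Real.sqrt_le_sqrt
      rw [hNr]; linarith
    have h3 : x ^ (1/4 : ℝ) * x ^ (1/2 : ℝ) ≤ Y := by
      rw [← Real.rpow_add hx0]
      refine le_trans ?_ hXY
      exact Real.rpow_le_rpow_of_exponent_le (by linarith) (by norm_num; linarith)
    have hx12 : 0 < x ^ (1/2 : ℝ) := by positivity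
    calc 3 * L ^ 2 * √((X + Y : ℕ) : ℝ) ≤ 12 * lx ^ 2 * (2 * x ^ (1/2 : ℝ)) :=
          mul_le_mul h1 h2 (by positivity) (by positivity)
      _ = (24 * lx) * (lx * x ^ (1/2 : ℝ)) := by ring
      _ ≤ (ε / 16 * x ^ (1/4 : ℝ)) * (lx * x ^ (1/2 : ℝ)) := by
          apply mul_le_mul_of_nonneg_right _ (by positivity)
          have : 0 < ε * x ^ (1/4 : ℝ) := by positivity
          linarith
      _ = (ε / 16 * lx) * (x ^ (1/4 : ℝ) * x ^ (1/2 : ℝ)) := by ring
      _ ≤ (ε / 16 * lx) * Y := mul_le_mul_of_nonneg_left h3 (by positivity)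
  have hfin : Y * ((2 - ε / 4 - ε / 32) * lx - ε / 4 * lx) ≤ SS L z X Y := by
    have h1 : (2 - ε / 4 - ε / 32) * lx - ε / 4 * lx ≤ SS L z X Y / Y := by linarith
    rw [le_div_iff₀ hY0] at h1
    linarith
  have hsum : SS L z X Y ≤ lx * P + PS X Y + (ε / 64 * lx * Y + ε / 16 * lx * Y +
      ε / 16 * lx * Y) := by
    have e : 3 * L ^ 2 * (2 * Y / z + √((X + Y : ℕ) : ℝ)) =
      3 * L ^ 2 * (2 * Y / z) + 3 * L ^ 2 * √((X + Y : ℕ) : ℝ) := by ring
    rw [e] at hup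
    linarith
  have hgoal : (2 - ε) * Y * lx ≤ lx * P + PS X Y := by
    have : 0 ≤ ε * lx * Y := by positivity
    linarith
  have hlast : (2 - ε0) * Y * lx ≤ (2 - ε) * Y * lx := by
    apply mul_le_mul_of_nonneg_right _ hlx0.le
    apply mul_le_mul_of_nonneg_right _ hY0.le
    linarith
  exact hlast.trans hgoal

end Pool.Agent.H295R3.D
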